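import Pool.Agent.Helper34.FB.Goals

/-!
# Project FB, packet CLOSE
-/

set_option autoImplicit false

namespace Pool.Agent.Helper9.FB

open Pool.Agent.Helper34.FB

universe u v

section ops

variable {R : Type u} [CommRing R] {W : Type v} [AddCommGroup W] [Module R W]

/-- the product of the operators `E a`, `a ∈ A` -/
def EA {ι : Type} (E : ι → W →ₗ[R] W) : List ι → W → W
  | [], x => x
  | (a :: A), x => E a (EA E A x)

/-- the product of the operators `1 - K a E a`, `a ∈ A` -/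
def PA {ι : Type} (E : ι → W →ₗ[R] W) (K : ι → W →+ W) : List ι → W → W
  | [], x => x
  | (a :: A), x => PA E K A x - K a (E a (PA E K A x))

theorem EA_zero {ι : Type} (E : ι → W →ₗ[R] W) (A : List ι) : EA E A 0 = 0 := by
  induction A with
  | nil => rfl
  | cons a A ih => simp only [EA, ih, map_zero]

theorem EA_neg {ι : Type} (E : ι → W →ₗ[R] W) (A : List ι) (x : W) : EA E A (-x) = -EA E A x := by
  induction A with
  | nil => rfl
  | cons a A ih => simp only [EA, ih, map_neg]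

/-- an operator which anticommutes with the `E a`, `a ∈ A` -/
theorem EA_comm {ι : Type} (E : ι → W →ₗ[R] W) (gr : ℕ → Submodule R W) (T : W →+ W)
    (hT : ∀ i, ∀ w ∈ gr i, T w ∈ gr (i + 1)) (A : List ι)
    (hA : ∀ a ∈ A, ∀ w, E a (T w) + T (E a w) = 0) (i : ℕ) (x : W) (hx : x ∈ gr i) :
    ∃ x' ∈ gr (i + 1), T (EA E A x) = EA E A x' := by
  induction A with
  | nil => exact ⟨T x, hT i x hx, rfl⟩
  | cons a A ih =>
    obtain ⟨x', hx', h⟩ := ih fun b hb => hA b (List.mem_cons_of_mem _ hb)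
    refine ⟨-x', (gr (i + 1)).neg_mem hx', ?_⟩
    have h1 := hA a List.mem_cons_self (EA E A x)
    simp only [EA]
    rw [EA_neg, map_neg, ← h]
    exact eq_neg_of_add_eq_zero_right h1

theorem EA_hp {ι : Type} (E : ι → W →ₗ[R] W) (gr : ℕ → Submodule R W) (A : List ι) :
    ∀ (n : ℕ) (h : Fin n → W →+ W), (∀ k i, ∀ w ∈ gr i, h k w ∈ gr (i + 1)) →
    (∀ k a w, E a (h k w) + h k (E a w) = 0) → ∀ (i : ℕ) (x : W), x ∈ gr i →
    ∃ x' ∈ gr (i + n), hp n h (EA E A x) = EA E A x' := by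
  intro n
  induction n with
  | zero =>
    intro h _ _ i x hx
    exact ⟨x, hx, rfl⟩
  | succ n ih =>
    intro h h1 h2 i x hx
    obtain ⟨x', hx', e⟩ := ih (fun k => h k.succ) (fun k => h1 _) (fun k => h2 _) i x hx
    obtain ⟨x'', hx'', e'⟩ := EA_comm E gr (h 0) (h1 0) A (fun a _ w => h2 0 a w) (i + n) x' hx'
    refine ⟨x'', hx'', ?_⟩
    rw [← e', ← e]
    rfl

/-- the product of the `1 - K a E a` is a product of the `E a` times something of higher degree -/
theorem PA_eq {ι : Type} [DecidableEq ι] (E : ι → W →ₗ[R] W) (K : ι → W →+ W)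
    (gr : ℕ → Submodule R W) (hK : ∀ a i, ∀ w ∈ gr i, K a w ∈ gr (i + 1))
    (hEK : ∀ a b w, E b (K a w) + K a (E b w) = if b = a then w else 0) (i : ℕ) (u : W)
    (hu : u ∈ gr i) (A : List ι) (hA : A.Nodup) :
    ∃ x ∈ gr (i + A.length), PA E K A u = EA E A x := by
  induction A with
  | nil => exact ⟨u, hu, rfl⟩
  | cons a A ih =>
    rw [List.nodup_cons] at hA
    obtain ⟨x, hx, e⟩ := ih hA.2
    obtain ⟨x', hx', e'⟩ := EA_comm E gr (K a) (hK a) A (fun b hb w => by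
      rw [hEK, if_neg]
      rintro rfl
      exact hA.1 hb) (i + A.length) x hx
    refine ⟨x', hx', ?_⟩
    simp only [PA, EA]
    rw [e, ← e']
    have h1 := hEK a a (EA E A x)
    rw [if_pos rfl] at h1
    exact (eq_sub_of_add_eq h1).symm

/-- the effect on elements of degree one -/
theorem PA_one {ι : Type} [DecidableEq ι] {J : Type} (E : ι → W →ₗ[R] W) (K : ι → W →+ W)
    (D : J → W →ₗ[R] W) (g : ι → J → R)
    (gr : ℕ → Submodule R W) (hK : ∀ a i, ∀ w ∈ gr i, K a w ∈ gr (i + 1))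
    (hEg : ∀ a i, ∀ w ∈ gr (i + 1), E a w ∈ gr i) (hE0 : ∀ a, ∀ w ∈ gr 0, E a w = 0)
    (hD0 : ∀ j, ∀ w ∈ gr 0, D j w = 0)
    (hEK : ∀ a b w, E b (K a w) + K a (E b w) = if b = a then w else 0)
    (hDK : ∀ a j w, D j (K a w) + K a (D j w) = -g a j • w) (u : W)
    (hu : u ∈ gr 1) (A : List ι) (hA : A.Nodup) :
    PA E K A u ∈ gr 1 ∧ (∀ b, E b (PA E K A u) = if b ∈ A then 0 else E b u) ∧
    ∀ j, D j (PA E K A u) = D j u + (A.map fun a => g a j • E a u).sum := by
  induction A with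
  | nil => exact ⟨hu, fun b => by simp [PA], fun j => by simp [PA]⟩
  | cons a A ih =>
    rw [List.nodup_cons] at hA
    obtain ⟨h1, h2, h3⟩ := ih hA.2
    have h4 : E a (PA E K A u) ∈ gr 0 := hEg a 0 _ h1
    refine ⟨(gr 1).sub_mem h1 (hK a 0 _ h4), fun b => ?_, fun j => ?_⟩
    · have h5 := hEK a b (E a (PA E K A u))
      rw [hE0 b _ h4, map_zero, add_zero] at h5
      simp only [PA]
      rw [map_sub, h5, h2 b]
      by_cases hb : b = a
      · subst hb
        rw [if_pos rfl, h2 b, sub_self, if_pos List.mem_cons_self]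
      · rw [if_neg hb, sub_zero]
        simp only [List.mem_cons, hb, false_or]
    · have h5 := hDK a j (E a (PA E K A u))
      rw [hD0 j _ h4, map_zero, add_zero] at h5
      simp only [PA, List.map_cons, List.sum_cons]
      rw [map_sub, h5, h3 j, h2 a, if_neg hA.1, neg_smul, sub_neg_eq_add, add_assoc,
        add_comm (List.sum _)]

end ops

/-- Laplace expansion along the row `k0`, with another vector as this row -/
theorem laplace {R : Type u} [CommRing R] {n : ℕ} (M : Matrix (Fin (n + 1)) (Fin (n + 1)) R)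
    (k0 : Fin (n + 1)) (w : Fin (n + 1) → R) :
    ∑ b : Fin (n + 1), ((-1) ^ (b : ℕ) * (M.submatrix k0.succAbove b.succAbove).det) * w b =
      (-1) ^ (k0 : ℕ) * (M.updateRow k0 w).det := by
  rw [Matrix.det_succ_row _ k0, Finset.mul_sum]
  refine Finset.sum_congr rfl fun b _ => ?_
  rw [Matrix.updateRow_self, Matrix.submatrix_updateRow_succAbove, pow_add]
  have h : ((-1 : R) ^ (k0 : ℕ)) * (-1) ^ (k0 : ℕ) = 1 := by
    rw [← mul_pow]; simp
  linear_combination (-(-1 : R) ^ (b : ℕ) * (M.submatrix k0.succAbove b.succAbove).det * w b) * h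

theorem gCLOSE : G_CLOSE.{u, v} := by
  intro hROW R _ t1 t2 n s p f1 f2 S g hreg hn hsp hg c1 c2 ψ hc1 hc2 α hα hψ k0 l
  obtain ⟨n, rfl⟩ : ∃ n', n = n' + 1 := ⟨n - 1, by omega⟩
  -- the operators `Hh`, `H`
  have hop : ∀ k, ∃ (Hh : S.W →+ S.W') (H : S.W →+ S.W),
      (∀ i, ∀ y ∈ S.gr i, Hh y ∈ S.gr' (i + 1)) ∧ (∀ i, ∀ y ∈ S.gr i, H y ∈ S.gr (i + 1)) ∧
      (∀ j y, S.D' j (Hh y) + Hh (S.D j y) =
        S.ι ((Sum.elim (c1 k) (fun _ => 0) j : R) • y, (Sum.elim (c2 k) (fun _ => 0) j : R) • y)) ∧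
      (∀ j y, S.D j (H y) + H (S.D j y) = (t1 * (Sum.elim (c1 k) (fun _ => 0) j : R) +
        t2 * (Sum.elim (c2 k) (fun _ => 0) j : R)) • y) ∧
      (∀ y, S.θ (Hh y) = ψ k • y) := by
    intro k
    obtain ⟨Hh, H, h1, h2, h3, h4, h5, -, -⟩ := S.hop (Sum.elim (c1 k) fun _ => 0)
      (Sum.elim (c2 k) fun _ => 0) (ψ k)
      (by rw [Fintype.sum_sum_type]; simpa using hc1 k)
      (by rw [Fintype.sum_sum_type]; simpa using hc2 k)
    exact ⟨Hh, H, h1, h2, h3, h4, h5⟩
  choose Hh H hHh hH hHhD hHD hθ using hop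
  -- the operators `K`
  have kop : ∀ a : Fin s, ∃ K : S.W →+ S.W, (∀ i, ∀ w ∈ S.gr i, K w ∈ S.gr (i + 1)) ∧
      ∀ j w, S.D j (K w) + K (S.D j w) =
        (Sum.elim (fun j => -g a j) (fun b => if b = a then 1 else 0) j : R) • w := by
    intro a
    obtain ⟨K, h1, -, h2⟩ := S.kop (Sum.elim (fun j => -g a j) fun b => if b = a then 1 else 0)
      (by
        rw [Fintype.sum_sum_type]
        simp only [Sum.elim_inl, Sum.elim_inr, neg_mul, Finset.sum_neg_distrib, ite_mul, one_mul,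
          zero_mul, Finset.sum_ite_eq', Finset.mem_univ, if_true]
        rw [hg a]
        ring)
    exact ⟨K, h1, h2⟩
  choose K hK hKD using kop
  -- the element `y`
  obtain ⟨u, hu, v, hv, hy⟩ := S.θ_ker 1 (∑ k, Hh k (α k))
    (AddSubgroup.sum_mem _ fun k _ => hHh k 0 _ (hα k))
    (by rw [map_sum]; simp only [hθ]; exact hψ)
  have hD : ∀ j, ∃ x ∈ S.gr 0,
      ∑ k, (Sum.elim (c1 k) (fun _ => 0) j : R) • α k - S.D j u = -(t2 • x) ∧
      ∑ k, (Sum.elim (c2 k) (fun _ => 0) j : R) • α k - S.D j v = t1 • x := by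
    intro j
    refine S.ι_ker 0 _ ?_ _ ?_ ?_
    · exact (S.gr 0).sub_mem ((S.gr 0).sum_mem fun k _ => (S.gr 0).smul_mem _ (hα k))
        (S.D_gr j 0 u hu)
    · exact (S.gr 0).sub_mem ((S.gr 0).sum_mem fun k _ => (S.gr 0).smul_mem _ (hα k))
        (S.D_gr j 0 v hv)
    · have e1 : S.D' j (∑ k, Hh k (α k)) = S.ι (∑ k, (Sum.elim (c1 k) (fun _ => 0) j : R) • α k,
          ∑ k, (Sum.elim (c2 k) (fun _ => 0) j : R) • α k) := by
        rw [map_sum]
        have e2 : (∑ k, (Sum.elim (c1 k) (fun _ => 0) j : R) • α k,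
            ∑ k, (Sum.elim (c2 k) (fun _ => 0) j : R) • α k) =
            ∑ k, ((Sum.elim (c1 k) (fun _ => 0) j : R) • α k,
              (Sum.elim (c2 k) (fun _ => 0) j : R) • α k) := by
          rw [Prod.ext_iff, Prod.fst_sum, Prod.snd_sum]
          exact ⟨rfl, rfl⟩
        rw [e2, map_sum]
        refine Finset.sum_congr rfl fun k _ => ?_
        rw [← hHhD k j (α k), S.D_zero j _ (hα k), map_zero, add_zero]
      have e3 : ((∑ k, (Sum.elim (c1 k) (fun _ => 0) j : R) • α k - S.D j u,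
          ∑ k, (Sum.elim (c2 k) (fun _ => 0) j : R) • α k - S.D j v) : S.W × S.W) =
          (∑ k, (Sum.elim (c1 k) (fun _ => 0) j : R) • α k,
            ∑ k, (Sum.elim (c2 k) (fun _ => 0) j : R) • α k) - (S.D j u, S.D j v) := rfl
      rw [e3, map_sub, ← e1, hy, S.ι_D, sub_self]
  choose x hx hx1 hx2 using hD
  -- the new elements
  have hrow : ∀ w ∈ S.gr 1, ∃ w' : S.W,
      (∀ j, S.D (Sum.inl j) w' = S.D (Sum.inl j) w + ∑ a, g a j • S.D (Sum.inr a) w) ∧
      ∑ b : Fin (n + 1), ((-1) ^ (b : ℕ) * ((Matrix.of fun k b => t1 * c1 k (l b) +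
        t2 * c2 k (l b)).submatrix k0.succAbove b.succAbove).det) • S.D (Sum.inl (l b)) w' = 0 := by
    intro w hw
    have hEK : ∀ a b w, S.D (Sum.inr b) (K a w) + K a (S.D (Sum.inr b) w) =
        if b = a then w else 0 := by
      intro a b w
      rw [hKD a (Sum.inr b) w, Sum.elim_inr]
      split_ifs
      · exact one_smul _ _
      · exact zero_smul _ _
    have hDK : ∀ a j w, S.D (Sum.inl j) (K a w) + K a (S.D (Sum.inl j) w) = -g a j • w := by
      intro a j w
      rw [hKD a (Sum.inl j) w, Sum.elim_inl]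
    obtain ⟨h1, h2, h3⟩ := PA_one (fun a => S.D (Sum.inr a)) K (fun j => S.D (Sum.inl j)) g S.gr
      hK (fun a => S.D_gr _) (fun a => S.D_zero _) (fun j => S.D_zero _) hEK hDK w hw
      (List.finRange s) (List.nodup_finRange s)
    obtain ⟨z, hz, e⟩ := PA_eq (fun a => S.D (Sum.inr a)) K S.gr hK hEK 1 w hw (List.finRange s)
      (List.nodup_finRange s)
    refine ⟨PA (fun a => S.D (Sum.inr a)) K (List.finRange s) w, fun j => ?_, ?_⟩
    · rw [h3 j, ← List.ofFn_eq_map, List.sum_ofFn]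
    · obtain ⟨z', hz', e'⟩ := EA_hp (fun a => S.D (Sum.inr a)) S.gr (List.finRange s) n
        (fun i => H (k0.succAbove i)) (fun k => hH _) (fun k a w => by
          rw [hHD]; simp) _ z hz
      rw [List.length_finRange] at hz'
      have hz0 : z' = 0 := S.gr_top _ (by omega) _ hz'
      have h4 := hROW R S.W (Fin (n + 1 + 1) ⊕ Fin s) S.D n (fun i => H (k0.succAbove i))
        (fun i j => t1 * (Sum.elim (c1 (k0.succAbove i)) (fun _ => 0) j : R) +
          t2 * (Sum.elim (c2 (k0.succAbove i)) (fun _ => 0) j : R))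
        (fun i j y => hHD _ _ _) (PA (fun a => S.D (Sum.inr a)) K (List.finRange s) w)
        (fun j j' => S.D_zero j _ (S.D_gr j' 0 _ h1))
        (by rw [e, e', hz0, EA_zero]) (fun b => Sum.inl (l b))
      exact h4
  obtain ⟨u', hu1, hu2⟩ := hrow u hu
  obtain ⟨v', hv1, hv2⟩ := hrow v hv
  -- the relations for the new elements
  set M : Matrix (Fin (n + 1)) (Fin (n + 1)) R :=
    Matrix.of fun k b => t1 * c1 k (l b) + t2 * c2 k (l b) with hM
  set m : Fin (n + 1) → R := fun b =>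
    (-1) ^ (b : ℕ) * (M.submatrix k0.succAbove b.succAbove).det with hm
  set V : Fin (n + 1 + 1) → S.W := fun j => x (Sum.inl j) + ∑ a, g a j • x (Sum.inr a) with hV
  have hV0 : ∀ j, V j ∈ S.gr 0 := fun j =>
    (S.gr 0).add_mem (hx _) ((S.gr 0).sum_mem fun a _ => (S.gr 0).smul_mem _ (hx _))
  have hr1 : ∀ a, S.D (Sum.inr a) u = t2 • x (Sum.inr a) := by
    intro a
    have := hx1 (Sum.inr a)
    simp only [Sum.elim_inr, zero_smul, Finset.sum_const_zero, zero_sub, neg_inj] at this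
    exact this
  have hr2 : ∀ a, S.D (Sum.inr a) v = -(t1 • x (Sum.inr a)) := by
    intro a
    have := hx2 (Sum.inr a)
    simp only [Sum.elim_inr, zero_smul, Finset.sum_const_zero, zero_sub] at this
    rw [← this, neg_neg]
  have q1 : ∀ j, ∑ k, c1 k j • α k - S.D (Sum.inl j) u' = -(t2 • V j) := by
    intro j
    have h := hx1 (Sum.inl j)
    simp only [Sum.elim_inl] at h
    rw [hu1 j, ← sub_sub, h, hV]
    simp only [hr1, smul_add, Finset.smul_sum, smul_comm t2]
    abel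
  have q2 : ∀ j, ∑ k, c2 k j • α k - S.D (Sum.inl j) v' = t1 • V j := by
    intro j
    have h := hx2 (Sum.inl j)
    simp only [Sum.elim_inl] at h
    rw [hv1 j, ← sub_sub, h, hV]
    simp only [hr2, smul_add, Finset.smul_sum, smul_comm t1, smul_neg, Finset.sum_neg_distrib]
    abel
  -- multiply by the minors and add
  have key : ∀ (c' : Fin (n + 1) → Fin (n + 1 + 1) → R) (w' : S.W),
      (∑ b : Fin (n + 1), m b • S.D (Sum.inl (l b)) w' = 0) →
      ∑ b, m b • (∑ k, c' k (l b) • α k - S.D (Sum.inl (l b)) w') =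
        ∑ k, (∑ b, m b * c' k (l b)) • α k := by
    intro c' w' hw'
    simp only [smul_sub, Finset.sum_sub_distrib, hw', sub_zero, Finset.smul_sum, Finset.sum_smul,
      mul_smul]
    exact Finset.sum_comm
  set Vs : S.W := ∑ b, m b • V (l b) with hVs
  have hVs0 : Vs ∈ S.gr 0 := (S.gr 0).sum_mem fun b _ => (S.gr 0).smul_mem _ (hV0 _)
  have r1 : ∑ k, (∑ b, m b * c1 k (l b)) • α k = -(t2 • Vs) := by
    rw [← key c1 u' hu2]
    simp only [q1, hVs, Finset.smul_sum, smul_neg, Finset.sum_neg_distrib, smul_comm t2]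
  have r2 : ∑ k, (∑ b, m b * c2 k (l b)) • α k = t1 • Vs := by
    rw [← key c2 v' hv2]
    simp only [q2, hVs, Finset.smul_sum, smul_comm t1]
  -- the determinants
  have hdet : ∀ k, t1 * (∑ b, m b * c1 k (l b)) + t2 * (∑ b, m b * c2 k (l b)) =
      (-1) ^ (k0 : ℕ) * (M.updateRow k0 (M k)).det := by
    intro k
    rw [← laplace M k0 (M k), Finset.mul_sum, Finset.mul_sum, ← Finset.sum_add_distrib]
    refine Finset.sum_congr rfl fun b _ => ?_
    rw [hM, Matrix.of_apply]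
    ring
  have hω : ∀ k, k ≠ k0 → ∃ ω : R, ∑ b, m b * c1 k (l b) = -(t2 * ω) ∧
      ∑ b, m b * c2 k (l b) = t1 * ω := by
    intro k hk
    refine hreg _ _ ?_
    rw [hdet k, Matrix.det_zero_of_row_eq hk, mul_zero]
    rw [Matrix.updateRow_ne hk, Matrix.updateRow_self]
  choose! ω hω1 hω2 using hω
  have hd0 : t1 * (∑ b, m b * c1 k0 (l b)) + t2 * (∑ b, m b * c2 k0 (l b)) =
      (-1) ^ (k0 : ℕ) * M.det := by
    rw [hdet k0, Matrix.updateRow_eq_self]
  have hsgn : ((-1 : R) ^ (k0 : ℕ)) * (-1) ^ (k0 : ℕ) = 1 := by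
    rw [← mul_pow]; simp
  have s1 : (∑ b, m b * c1 k0 (l b)) • α k0 =
      -(t2 • (Vs - ∑ k ∈ Finset.univ.erase k0, ω k • α k)) := by
    rw [← Finset.add_sum_erase _ _ (Finset.mem_univ k0)] at r1
    have h : ∑ k ∈ Finset.univ.erase k0, (∑ b, m b * c1 k (l b)) • α k =
        -(t2 • ∑ k ∈ Finset.univ.erase k0, ω k • α k) := by
      rw [Finset.smul_sum, ← Finset.sum_neg_distrib]
      refine Finset.sum_congr rfl fun k hk => ?_
      rw [hω1 k (Finset.ne_of_mem_erase hk), neg_smul, mul_smul]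
    rw [h] at r1
    rw [smul_sub, neg_sub, ← sub_eq_zero]
    rw [← sub_eq_zero] at r1
    rw [← r1]
    abel
  have s2 : (∑ b, m b * c2 k0 (l b)) • α k0 =
      t1 • (Vs - ∑ k ∈ Finset.univ.erase k0, ω k • α k) := by
    rw [← Finset.add_sum_erase _ _ (Finset.mem_univ k0)] at r2
    have h : ∑ k ∈ Finset.univ.erase k0, (∑ b, m b * c2 k (l b)) • α k =
        t1 • ∑ k ∈ Finset.univ.erase k0, ω k • α k := by
      rw [Finset.smul_sum]
      refine Finset.sum_congr rfl fun k hk => ?_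
      rw [hω2 k (Finset.ne_of_mem_erase hk), mul_smul]
    rw [h] at r2
    rw [smul_sub, ← r2]
    abel
  have hmem : Vs - ∑ k ∈ Finset.univ.erase k0, ω k • α k ∈ S.gr 0 :=
    (S.gr 0).sub_mem hVs0 ((S.gr 0).sum_mem fun k _ => (S.gr 0).smul_mem _ (hα k))
  refine ⟨(-1) ^ (k0 : ℕ) * (∑ b, m b * c1 k0 (l b)), (-1) ^ (k0 : ℕ) * (∑ b, m b * c2 k0 (l b)),
    (-1 : R) ^ (k0 : ℕ) • (Vs - ∑ k ∈ Finset.univ.erase k0, ω k • α k),
    (S.gr 0).smul_mem _ hmem, ?_, ?_, ?_⟩
  · linear_combination (-(-1 : R) ^ (k0 : ℕ)) * hd0 - M.det * hsgn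
  · rw [mul_smul, s1, smul_neg, smul_comm]
  · rw [mul_smul, s2, smul_comm]

end Pool.Agent.Helper9.FB
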